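import Pool.Agent.Helper13.MW.Main

/-!
# MP_a16d94_pr: finitely presented groups whose derived group has infinite dimensional rational first homology

If `G` is finitely presented and the rational vector space `H_1(G'; Q) = Q ⊗ (G' / G'')` is infinite dimensional, then every random walk on `G` with independent
steps of a symmetric finitely supported law whose support generates `G` has speed exponent `1`.
-/

set_option autoImplicit false

namespace Pool.Agent.Results.MP_a16d94_pr.DerivedHomology

/-- the word length of `g` with respect to `S`: the least length of a product of elements of `S` and inverses of elements of `S` which equals `g` -/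
noncomputable def wordLength {G : Type} [Group G] (S : Set G) (g : G) : ℕ :=
  sInf {m | ∃ l : List G, l.length = m ∧ (∀ x ∈ l, x ∈ S ∨ x⁻¹ ∈ S) ∧ l.prod = g}

/-- the expected word length of `X_n = ξ_1 * ... * ξ_n`, the steps `ξ_i` independent of law `μ` -/
noncomputable def expectedLength {G : Type} [Group G] (S : Set G) (μ : G →₀ ℝ) (n : ℕ) : ℝ :=
  ∑ w : Fin n → μ.support, (∏ i, μ (w i)) * (wordLength S (List.ofFn fun i => (w i : G)).prod : ℝ)

theorem result (G : Type) [Group G] [Group.IsFinitelyPresented G]
    (hinf : ¬ FiniteDimensional ℚ (TensorProduct ℤ ℚ (Additive (Abelianization (commutator G)))))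
    (S : Finset G) (hS : Subgroup.closure (S : Set G) = ⊤)
    (μ : G →₀ ℝ) (hμ : ∀ g, 0 ≤ μ g) (hmass : (μ.sum fun _ a => a) = 1) (hsymm : ∀ g, μ g⁻¹ = μ g)
    (hgen : Subgroup.closure (μ.support : Set G) = ⊤) :
    Filter.Tendsto (fun n : ℕ => Real.log (expectedLength (S : Set G) μ n) / Real.log n) Filter.atTop (nhds 1) :=
  Pool.Agent.Helper13.MW.tendsto_expLen 1
    (fun Ω _ _ s σ hσ hs p hp => Pool.Agent.Helper13.MW.main G hinf Ω s σ hσ hs p hp) S hS μ hμ hmass hsymm hgen

end Pool.Agent.Results.MP_a16d94_pr.DerivedHomology
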