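import Pool.Agent.Helper27.SX.Step

/-!
# MP_a16d94_pr: finitely presented groups with speed exponent exactly 1 - 2 ^ (-k)

For every `k ≥ 1` there is a finitely presented group with a symmetric, finitely supported, generating random walk `X_n` such that
`c n ^ (1 - 2 ^ (-k)) ≤ E |X_n| ≤ C n ^ (1 - 2 ^ (-k))` for all `n ≥ 1`; in particular `log E |X_n| / log n → 1 - 2 ^ (-k)`.
The groups are iterated permutational wreath products with Houghton's group on three rays, starting from the integers.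
-/

set_option autoImplicit false

namespace Pool.Agent.Results.MP_a16d94_pr.FPExponents

open Pool.Agent.Helper27.SX

/-- the word length of `g` with respect to `S`: the least length of a product of elements of `S` which equals `g` -/
noncomputable def wordLength {G : Type} [Group G] (S : Set G) (g : G) : ℕ :=
  sInf {m | ∃ l : List G, l.length = m ∧ (∀ x ∈ l, x ∈ S) ∧ l.prod = g}

/-- the expected word length of `X_n = s (ω 1) * ... * s (ω n)`, the `ω i` independent and uniform in the finite set `Ω` -/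
noncomputable def expectedLength {G : Type} [Group G] {Ω : Type} [Fintype Ω] (s : Ω → G) (n : ℕ) : ℝ :=
  (∑ w : Fin n → Ω, (wordLength (Set.range s) (List.ofFn fun i => s (w i)).prod : ℝ)) / (Fintype.card Ω : ℝ) ^ n

theorem result (k : ℕ) (hk : 1 ≤ k) :
    ∃ (G : Type) (_ : Group G) (_ : Group.IsFinitelyPresented G) (Ω : Type) (_ : Fintype Ω) (_ : Nonempty Ω) (s : Ω → G),
      (∃ σ : Ω ≃ Ω, ∀ ω, s (σ ω) = (s ω)⁻¹) ∧ Subgroup.closure (Set.range s) = ⊤ ∧
      (∃ c C : ℝ, 0 < c ∧ ∀ n : ℕ, 1 ≤ n → c * (n : ℝ) ^ (1 - (1 / 2 : ℝ) ^ k) ≤ expectedLength s n ∧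
        expectedLength s n ≤ C * (n : ℝ) ^ (1 - (1 / 2 : ℝ) ^ k)) ∧
      Filter.Tendsto (fun n : ℕ => Real.log (expectedLength s n) / Real.log n) Filter.atTop (nhds (1 - (1 / 2 : ℝ) ^ k)) := by
  obtain ⟨j, rfl⟩ : ∃ j, k = j + 1 := ⟨k - 1, by omega⟩
  obtain ⟨G, hG, hfp, R, c, C, hc, h⟩ := iter j
  refine ⟨G, hG, hfp, R.Ω, R.fin, R.ne, R.s, ⟨R.inv, R.s_inv⟩, R.gen, ⟨c, C, hc, h⟩, ?_⟩
  set b : ℝ := 1 - (1 / 2 : ℝ) ^ (j + 1) with hb
  have h' : ∀ n : ℕ, 1 ≤ n → c * (n : ℝ) ^ b ≤ expectedLength R.s n ∧ expectedLength R.s n ≤ C * (n : ℝ) ^ b := h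
  have hC : 0 < C := by
    have h1 := h' 1 le_rfl
    norm_num at h1
    linarith [h1.1, h1.2]
  have hlog : Filter.Tendsto (fun n : ℕ => Real.log (n : ℝ)) Filter.atTop Filter.atTop :=
    Real.tendsto_log_atTop.comp tendsto_natCast_atTop_atTop
  have hl : ∀ a : ℝ, Filter.Tendsto (fun n : ℕ => a / Real.log n + b) Filter.atTop (nhds b) := by
    intro a
    have := (hlog.const_div_atTop a).add_const b
    simpa using this
  refine tendsto_of_tendsto_of_tendsto_of_le_of_le' (hl (Real.log c)) (hl (Real.log C)) ?_ ?_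
  · filter_upwards [Filter.eventually_ge_atTop 2] with n hn
    have hn1 : (1 : ℝ) < n := by exact_mod_cast hn
    have hn0 : (0 : ℝ) < n := by linarith
    have hlp : 0 < Real.log n := Real.log_pos hn1
    have hp : 0 < (n : ℝ) ^ b := Real.rpow_pos_of_pos hn0 b
    rw [div_add' _ _ _ hlp.ne', div_le_div_iff_of_pos_right hlp, ← Real.log_rpow hn0, ← Real.log_mul hc.ne' hp.ne']
    exact Real.log_le_log (mul_pos hc hp) (h' n (by omega)).1
  · filter_upwards [Filter.eventually_ge_atTop 2] with n hn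
    have hn1 : (1 : ℝ) < n := by exact_mod_cast hn
    have hn0 : (0 : ℝ) < n := by linarith
    have hlp : 0 < Real.log n := Real.log_pos hn1
    have hp : 0 < (n : ℝ) ^ b := Real.rpow_pos_of_pos hn0 b
    rw [div_add' _ _ _ hlp.ne', div_le_div_iff_of_pos_right hlp, ← Real.log_rpow hn0, ← Real.log_mul hC.ne' hp.ne']
    exact Real.log_le_log (lt_of_lt_of_le (mul_pos hc hp) (h' n (by omega)).1) (h' n (by omega)).2

end Pool.Agent.Results.MP_a16d94_pr.FPExponents
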