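import Pool.Agent.Helper13.MW.Fin
import Pool.Agent.Helper74.MW.Final

/-!
# MP_a16d94_pr: finitely presented metabelian groups

Every random walk on a finitely presented metabelian group `G`, with independent steps of a symmetric finitely supported law whose support generates `G`, has a speed exponent.
The exponent depends only on `G`; it is `0` if `G` is finite and `1/2` or `1` if `G` is infinite.
-/

set_option autoImplicit false

namespace Pool.Agent.Results.MP_a16d94_pr.MetabelianGroups

/-- the word length of `g` with respect to `S`: the least length of a product of elements of `S` and inverses of elements of `S` which equals `g` -/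
noncomputable def wordLength {G : Type} [Group G] (S : Set G) (g : G) : ℕ :=
  sInf {m | ∃ l : List G, l.length = m ∧ (∀ x ∈ l, x ∈ S ∨ x⁻¹ ∈ S) ∧ l.prod = g}

/-- the expected word length of `X_n = ξ_1 * ... * ξ_n`, the steps `ξ_i` independent of law `μ` -/
noncomputable def expectedLength {G : Type} [Group G] (S : Set G) (μ : G →₀ ℝ) (n : ℕ) : ℝ :=
  ∑ w : Fin n → μ.support, (∏ i, μ (w i)) * (wordLength S (List.ofFn fun i => (w i : G)).prod : ℝ)

theorem result (G : Type) [Group G] [Group.IsFinitelyPresented G]
    (hmet : ∀ a ∈ commutator G, ∀ b ∈ commutator G, a * b = b * a) :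
    ∃ β : ℝ, (Finite G → β = 0) ∧ (Infinite G → β = 1 / 2 ∨ β = 1) ∧
      ∀ (S : Finset G), Subgroup.closure (S : Set G) = ⊤ →
        ∀ (μ : G →₀ ℝ), (∀ g, 0 ≤ μ g) → (μ.sum fun _ a => a) = 1 → (∀ g, μ g⁻¹ = μ g) →
          Subgroup.closure (μ.support : Set G) = ⊤ →
            Filter.Tendsto (fun n : ℕ => Real.log (expectedLength (S : Set G) μ n) / Real.log n) Filter.atTop (nhds β) := by
  obtain ⟨β, h0, h1, h⟩ := Pool.Agent.Helper13.MW.main_metabelian G hmet
    (fun hA hB Ω _ _ s σ hσ hs p hp ε hε => Pool.Agent.Helper74.MW.elw_upper s σ hσ hs p hp hmet hA hB ε hε)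
    (fun Ω _ _ s σ hσ hs p hp f hf => Pool.Agent.Helper74.MW.elw_lower s σ hσ hs p hp f hf)
  exact ⟨β, h0, h1, fun S hS μ hμ hmass hsymm hgen =>
    Pool.Agent.Helper13.MW.tendsto_expLen β h S hS μ hμ hmass hsymm hgen⟩

end Pool.Agent.Results.MP_a16d94_pr.MetabelianGroups
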