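import Pool.Agent.Helper74.MX.Fin

/-!
# MP_a16d94_pr: groups whose derived quotient `G'/G''` is large modulo a prime

Let `p` be a prime and `g`, `h` elements of a finitely generated group `G`, which act on `G'/G''` by conjugation. If no polynomial
`F ∈ ℤ[X, Y]` which is nonzero modulo `p` annihilates `G'/G''` (with `X = g`, `Y = h`), then every walk on `G` has speed exponent `1`.
-/

set_option autoImplicit false

namespace Pool.Agent.Results.MP_a16d94_pr.ModularHomology

/-- the word length of `g` with respect to `S`: the least length of a product of elements of `S` and inverses of elements of `S` which equals `g` -/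
noncomputable def wordLength {G : Type} [Group G] (S : Set G) (g : G) : ℕ :=
  sInf {m | ∃ l : List G, l.length = m ∧ (∀ x ∈ l, x ∈ S ∨ x⁻¹ ∈ S) ∧ l.prod = g}

/-- the expected word length of `X_n = ξ_1 * ... * ξ_n`, the steps `ξ_i` independent of law `μ` -/
noncomputable def expectedLength {G : Type} [Group G] (S : Set G) (μ : G →₀ ℝ) (n : ℕ) : ℝ :=
  ∑ w : Fin n → μ.support, (∏ i, μ (w i)) * (wordLength S (List.ofFn fun i => (w i : G)).prod : ℝ)

/-- `F(g, h) a` for `a` in `G'`: the product of the conjugates of `a` by `g ^ i * h ^ j`, raised to the coefficient of `X ^ i * Y ^ j`;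
modulo `G''` the order of the factors does not matter -/
noncomputable def act {G : Type} [Group G] (F : MvPolynomial (Fin 2) ℤ) (g h a : G) : G :=
  (F.support.toList.map fun e => (g ^ (e 0) * h ^ (e 1) * a * (g ^ (e 0) * h ^ (e 1))⁻¹) ^ (F.coeff e)).prod

theorem result (G : Type) [Group G] [Group.FG G] (p : ℕ) (hp : p.Prime) (g h : G)
    (hF : ∀ F : MvPolynomial (Fin 2) ℤ, MvPolynomial.map (Int.castRingHom (ZMod p)) F ≠ 0 →
      ∃ a ∈ commutator G, act F g h a ∉ ⁅commutator G, commutator G⁆)
    (S : Finset G) (hS : Subgroup.closure (S : Set G) = ⊤)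
    (μ : G →₀ ℝ) (h0 : ∀ x, 0 ≤ μ x) (h1 : (μ.sum fun _ a => a) = 1) (hsymm : ∀ x, μ x⁻¹ = μ x)
    (hgen : Subgroup.closure (μ.support : Set G) = ⊤) :
    Filter.Tendsto (fun n : ℕ => Real.log (expectedLength (S : Set G) μ n) / Real.log n) Filter.atTop (nhds 1) := by
  refine Pool.Agent.Helper74.MX.thick G ?_ S hS μ h0 h1 hsymm hgen
  intro hthin
  obtain ⟨F, hF1, hF2⟩ := hthin p hp g h
  obtain ⟨a, ha, hna⟩ := hF F hF1
  exact hna (hF2 a ha)

end Pool.Agent.Results.MP_a16d94_pr.ModularHomology
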